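import Pool.Agent.P8H82.WS.Stm

set_option autoImplicit false

/-!
# Project WS (helper82), package FPL: the finite places
-/

namespace Pool.Agent.P8H88.WS

open NumberField IsDedekindDomain
open Pool.Agent.P8H82.WS Pool.Agent.P8H82.JG

section

variable {K : Type} [Field K] [NumberField K]

theorem mk_pos (v : HeightOneSpectrum (𝓞 K)) {x : K} (hx : x ≠ 0) : 0 < FinitePlace.mk v x :=
  FinitePlace.pos_iff.2 hx

theorem mk_le_one (v : HeightOneSpectrum (𝓞 K)) (x : 𝓞 K) : FinitePlace.mk v (x : K) ≤ 1 :=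
  FinitePlace.norm_le_one K v x

theorem mk_eq_one (v : HeightOneSpectrum (𝓞 K)) {x : 𝓞 K} (hx : x ∉ v.asIdeal) :
    FinitePlace.mk v (x : K) = 1 :=
  (FinitePlace.norm_eq_one_iff_notMem K v x).2 hx

theorem supp_fin {x : 𝓞 K} (hx : x ≠ 0) :
    (Function.support fun v : HeightOneSpectrum (𝓞 K) =>
      Real.log (FinitePlace.mk v (x : K))).Finite := by
  have h : {v : HeightOneSpectrum (𝓞 K) | v.asIdeal ∣ Ideal.span {x}}.Finite := by
    apply Ideal.finite_factors
    simp only [Submodule.zero_eq_bot, ne_eq, Ideal.span_singleton_eq_bot, hx, not_false_eq_true]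
  refine h.subset ?_
  intro v hv
  show v.asIdeal ∣ Ideal.span {x}
  rw [Ideal.dvd_span_singleton]
  by_contra hn
  apply hv
  simp only [mk_eq_one v hn, Real.log_one]

theorem sum_log {x : 𝓞 K} (hx : x ≠ 0) :
    ∑ᶠ v : HeightOneSpectrum (𝓞 K), Real.log (FinitePlace.mk v (x : K)) =
      - Real.log (Ideal.absNorm (Ideal.span {x}) : ℝ) := by
  have hx' : (x : K) ≠ 0 := by
    rw [ne_eq, RingOfIntegers.coe_eq_zero_iff]
    exact hx
  rw [← Real.log_finprod fun v => mk_pos v hx']
  have h1 : ∏ᶠ v : HeightOneSpectrum (𝓞 K), FinitePlace.mk v (x : K) =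
      ∏ᶠ w : FinitePlace K, w x := by
    rw [← finprod_comp_equiv FinitePlace.equivHeightOneSpectrum.symm]
    rfl
  rw [h1, FinitePlace.prod_eq_inv_abs_norm_int hx, Real.log_inv, Ideal.absNorm_span_singleton]
  congr 2
  rw [← Int.cast_abs, Int.abs_eq_natAbs]
  rfl

/-- the invariant of a triple -/
theorem j_eq {t : 𝓞 K × 𝓞 K × 𝓞 K} (ht : Triple t) :
    jL (lamT t) = 256 * ((t.1 : K) ^ 2 + t.1 * t.2.1 + (t.2.1 : K) ^ 2) ^ 3 /
      ((t.1 * t.2.1 * t.2.2 : 𝓞 K) : K) ^ 2 := by
  obtain ⟨a, b, c⟩ := t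
  have hs : a + b + c = 0 := ht.sum
  have hn : a * b * c ≠ 0 := ht.ne
  have ha : (a : K) ≠ 0 := by
    rw [ne_eq, RingOfIntegers.coe_eq_zero_iff]
    rintro rfl
    simp at hn
  have hb : (b : K) ≠ 0 := by
    rw [ne_eq, RingOfIntegers.coe_eq_zero_iff]
    rintro rfl
    simp at hn
  have hc : (c : K) ≠ 0 := by
    rw [ne_eq, RingOfIntegers.coe_eq_zero_iff]
    rintro rfl
    simp at hn
  have hsK : (a : K) + b + c = 0 := by
    have := congrArg (fun x : 𝓞 K => (x : K)) hs
    simpa using this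
  have hb' : (b : K) = -a - c := by linear_combination hsK
  unfold jL lamT
  simp only [map_mul]
  have h1 : 1 - -(a : K) / c = -b / c := by
    rw [hb']
    field_simp
    ring
  rw [h1]
  have h2 : (-(a : K) / c) ^ 2 - -(a : K) / c + 1 = ((a : K) ^ 2 + a * b + b ^ 2) / c ^ 2 := by
    rw [hb']
    field_simp
    ring
  rw [h2]
  field_simp

end

theorem fpl : S_FPL := by
  intro K _ _ hK t ht h16
  have hj := j_eq ht
  set n : 𝓞 K := t.1 * t.2.1 * t.2.2 with hn
  have hn0 : n ≠ 0 := ht.ne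
  have hn0' : (n : K) ≠ 0 := by
    rw [ne_eq, RingOfIntegers.coe_eq_zero_iff]
    exact hn0
  set S : 𝓞 K := t.1 ^ 2 + t.1 * t.2.1 + t.2.1 ^ 2 with hS
  have hj' : jL (lamT t) = ((256 : 𝓞 K) : K) * (S : K) ^ 3 / (n : K) ^ 2 := by
    rw [hj, hS]
    simp only [RingOfIntegers.coe_eq_algebraMap, map_mul, map_add, map_pow, map_ofNat]
  obtain ⟨m, hm⟩ := h16
  -- coprimality
  have hcop : ∀ v : HeightOneSpectrum (𝓞 K), ¬ (t.1 ∈ v.asIdeal ∧ t.2.1 ∈ v.asIdeal) := by
    rintro v ⟨h1, h2⟩
    have h3 : t.2.2 ∈ v.asIdeal := by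
      have : t.2.2 = -(t.1 + t.2.1) := by linear_combination ht.sum
      rw [this]
      exact neg_mem (add_mem h1 h2)
    apply v.isPrime.ne_top
    rw [← top_le_iff, ← ht.cop, Ideal.span_le]
    rintro x (rfl | rfl | rfl)
    · exact h1
    · exact h2
    · exact h3
  have hSv : ∀ v : HeightOneSpectrum (𝓞 K), n ∈ v.asIdeal → S ∉ v.asIdeal := by
    intro v hv hSm
    have hp := v.isPrime
    have hc : t.2.2 = -(t.1 + t.2.1) := by linear_combination ht.sum
    rcases hp.mem_or_mem hv with h1 | h1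
    · rcases hp.mem_or_mem h1 with h2 | h2
      · apply hcop v
        refine ⟨h2, hp.mem_of_pow_mem 2 ?_⟩
        have : t.2.1 ^ 2 = S - t.1 * (t.1 + t.2.1) := by rw [hS]; ring
        rw [this]
        exact sub_mem hSm (Ideal.mul_mem_right _ _ h2)
      · apply hcop v
        refine ⟨hp.mem_of_pow_mem 2 ?_, h2⟩
        have : t.1 ^ 2 = S - t.2.1 * (t.1 + t.2.1) := by rw [hS]; ring
        rw [this]
        exact sub_mem hSm (Ideal.mul_mem_right _ _ h2)
    · have h3 : t.1 + t.2.1 ∈ v.asIdeal := by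
        rw [hc] at h1
        exact neg_mem_iff.1 h1
      have h4 : t.1 ∈ v.asIdeal := by
        apply hp.mem_of_pow_mem 2
        have : t.1 ^ 2 = S - t.2.1 * (t.1 + t.2.1) := by rw [hS]; ring
        rw [this]
        exact sub_mem hSm (Ideal.mul_mem_left _ _ h3)
      apply hcop v
      refine ⟨h4, ?_⟩
      have : t.2.1 = (t.1 + t.2.1) - t.1 := by ring
      rw [this]
      exact sub_mem h3 h4
  have h256 : (256 : 𝓞 K) ≠ 0 := by norm_num
  have h256' : ((256 : 𝓞 K) : K) ≠ 0 := by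
    rw [ne_eq, RingOfIntegers.coe_eq_zero_iff]
    exact h256
  -- the local factors
  have hloc : ∀ v : HeightOneSpectrum (𝓞 K),
      Real.log (max (FinitePlace.mk v (jL (lamT t))) 1) =
        Real.log (FinitePlace.mk v ((256 : 𝓞 K) : K)) - 2 * Real.log (FinitePlace.mk v (n : K)) := by
    intro v
    have hnp := mk_pos v hn0'
    have h2p := mk_pos v h256'
    have hmx : max (FinitePlace.mk v (jL (lamT t))) 1 =
        FinitePlace.mk v ((256 : 𝓞 K) : K) / FinitePlace.mk v (n : K) ^ 2 := by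
      rw [hj', map_div₀, map_mul, map_pow, map_pow]
      by_cases hv : n ∈ v.asIdeal
      · rw [mk_eq_one v (hSv v hv), one_pow, mul_one]
        apply max_eq_left
        rw [le_div_iff₀ (by positivity), one_mul]
        have h1 : (n : K) ^ 2 = ((256 : 𝓞 K) : K) * (m : K) ^ 2 := by
          rw [hm]
          simp only [RingOfIntegers.coe_eq_algebraMap, map_mul, map_ofNat]
          ring
        rw [← map_pow, h1, map_mul, map_pow]
        have h2 : FinitePlace.mk v (m : K) ^ 2 ≤ 1 :=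
          pow_le_one₀ (apply_nonneg _ _) (mk_le_one v m)
        calc FinitePlace.mk v ((256 : 𝓞 K) : K) * FinitePlace.mk v (m : K) ^ 2 ≤
            FinitePlace.mk v ((256 : 𝓞 K) : K) * 1 := by gcongr
          _ = _ := mul_one _
      · have h1 : (256 : 𝓞 K) ∉ v.asIdeal := by
          intro h
          apply hv
          have h2 : (2 : 𝓞 K) ∈ v.asIdeal := by
            apply v.isPrime.mem_of_pow_mem 8
            have : (2 : 𝓞 K) ^ 8 = 256 := by norm_num
            rw [this]
            exact h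
          rw [hm]
          have : (16 : 𝓞 K) * m = 2 * (8 * m) := by ring
          rw [this]
          exact Ideal.mul_mem_right _ _ h2
        rw [mk_eq_one v hv, mk_eq_one v h1, one_pow, one_mul, div_one, div_one]
        exact max_eq_right (pow_le_one₀ (apply_nonneg _ _) (mk_le_one v S))
    rw [hmx, Real.log_div h2p.ne' (by positivity), Real.log_pow]
    push_cast
    ring
  have hs1 : (fun v : HeightOneSpectrum (𝓞 K) =>
      Real.log (FinitePlace.mk v ((256 : 𝓞 K) : K))).HasFiniteSupport := supp_fin h256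
  have hs2 : (fun v : HeightOneSpectrum (𝓞 K) =>
      Real.log (FinitePlace.mk v (n : K))).HasFiniteSupport := supp_fin hn0
  have hs3 : (fun v : HeightOneSpectrum (𝓞 K) =>
      2 * Real.log (FinitePlace.mk v (n : K))).HasFiniteSupport := by
    refine hs2.subset ?_
    intro v hv h0
    apply hv
    simp only at h0 ⊢
    rw [h0, mul_zero]
  rw [finsum_congr hloc, finsum_sub_distrib hs1 hs3, ← mul_finsum, sum_log h256, sum_log hn0]
  have hN : (Ideal.absNorm (Ideal.span {(256 : 𝓞 K)}) : ℝ) = 2 ^ 16 := by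
    have h1 : Ideal.absNorm (Ideal.span {(256 : 𝓞 K)}) = 256 ^ 2 := by
      have h2 : (256 : 𝓞 K) = ((256 : ℕ) : 𝓞 K) := by norm_num
      rw [h2, Ideal.absNorm_span_natCast, RingOfIntegers.rank, hK]
    rw [h1]
    norm_num
  rw [hN, Real.log_pow]
  push_cast
  ring

end Pool.Agent.P8H88.WS
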