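import Pool.Agent.P8H82.WS.Stm

set_option autoImplicit false

/-!
# Project WS (helper82), package IPL: the infinite places
-/

namespace Pool.Agent.P8H88.WS

open NumberField
open Pool.Agent.P8H82.WS Pool.Agent.P8H82.JG

theorem ipl : S_IPL := by
  classical
  intro K _ _ σ τ hG F j
  have key : ∀ ρ : K →+* ℝ, ComplexEmbedding.IsReal (Complex.ofRealHom.comp ρ) := by
    intro ρ
    rw [ComplexEmbedding.isReal_iff]
    ext x
    simp [ComplexEmbedding.conjugate_coe_eq]
  have hinj : ∀ ρ ρ' : K →+* ℝ, Complex.ofRealHom.comp ρ = Complex.ofRealHom.comp ρ' → ρ = ρ' := by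
    intro ρ ρ' h
    ext x
    have := RingHom.congr_fun h x
    simpa using this
  set w₁ : InfinitePlace K := InfinitePlace.mk (Complex.ofRealHom.comp σ) with hw₁
  set w₂ : InfinitePlace K := InfinitePlace.mk (Complex.ofRealHom.comp τ) with hw₂
  have e₁ : w₁.embedding = Complex.ofRealHom.comp σ := InfinitePlace.embedding_mk_eq_of_isReal (key σ)
  have e₂ : w₂.embedding = Complex.ofRealHom.comp τ := InfinitePlace.embedding_mk_eq_of_isReal (key τ)
  have r₁ : w₁.IsReal := ⟨_, key σ, rfl⟩
  have r₂ : w₂.IsReal := ⟨_, key τ, rfl⟩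
  have hne : w₁ ≠ w₂ := by
    intro h
    apply hG.ne
    apply hinj
    rw [← e₁, ← e₂, h]
  have hsum : ∑ w : InfinitePlace K, w.mult = 2 := by
    rw [InfinitePlace.sum_mult_eq, hG.rank]
  have huniv : (Finset.univ : Finset (InfinitePlace K)) = {w₁, w₂} := by
    symm
    apply Finset.eq_of_subset_of_card_le (Finset.subset_univ _)
    rw [Finset.card_pair hne]
    calc (Finset.univ : Finset (InfinitePlace K)).card = ∑ _w : InfinitePlace K, 1 := by simp
      _ ≤ ∑ w : InfinitePlace K, w.mult := Finset.sum_le_sum fun w _ => InfinitePlace.mult_pos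
      _ = 2 := hsum
  rw [huniv, Finset.sum_pair hne, e₁, e₂, InfinitePlace.mult_isReal ⟨w₁, r₁⟩,
    InfinitePlace.mult_isReal ⟨w₂, r₂⟩]
  simp

end Pool.Agent.P8H88.WS
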